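import Mathlib

namespace Pool.Agent.Results.MP_36d240_al.Conj

/-- primary conjugacy -/
def PConj {S : Type} [Semigroup S] (a b : S) : Prop :=
  ∃ u v : WithOne S, (a : WithOne S) = u * v ∧ (b : WithOne S) = v * u

def gens : Set (FreeMonoid (Fin 3)) :=
  {FreeMonoid.ofList [0], FreeMonoid.ofList [1, 2], FreeMonoid.ofList [0, 1], FreeMonoid.ofList [2]}

lemma shape {w : FreeMonoid (Fin 3)} (h : w ∈ Subsemigroup.closure gens) :
    w.toList ≠ [] ∧ w.toList ≠ [1] := by
  induction h using Subsemigroup.closure_induction with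
  | mem x hx => rcases hx with rfl | rfl | rfl | rfl <;> decide
  | mul x y _ _ h1 h2 =>
    rw [FreeMonoid.toList_mul]
    obtain ⟨h1, _⟩ := h1
    obtain ⟨h2, _⟩ := h2
    revert h1 h2
    generalize x.toList = l
    generalize y.toList = m
    intro h1 h2
    refine ⟨by simp [h1], fun e => ?_⟩
    have := congrArg List.length e
    have := List.length_pos_iff.2 h1
    have := List.length_pos_iff.2 h2
    simp at *
    omega

lemma emb : Function.Injective (FreeMonoid.lift (FreeGroup.of : Fin 3 → FreeGroup (Fin 3))) := by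
  have h : ∀ w : FreeMonoid (Fin 3), (FreeMonoid.lift FreeGroup.of w).toWord =
      w.toList.map (fun x => (x, true)) := by
    intro w
    have e : FreeMonoid.lift FreeGroup.of w = FreeGroup.mk (w.toList.map (fun x => (x, true))) := by
      induction w using FreeMonoid.inductionOn' with
      | one => rfl
      | of_mul x w ih => rw [map_mul, ih]; rfl
    rw [e, FreeGroup.toWord_mk]
    apply FreeGroup.IsReduced.reduce_eq
    rw [FreeGroup.IsReduced, List.isChain_map]
    exact List.Pairwise.isChain (List.pairwise_of_forall (by simp))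
  intro a b e
  have := (h a).symm.trans ((congrArg _ e).trans (h b))
  exact FreeMonoid.toList.injective
    (List.map_injective_iff.2 (fun x y h => (Prod.mk.inj h).1) this)

theorem result : ∃ (S : Type) (_ : Semigroup S), IsCancelMul S ∧
    (∃ (G : Type) (_ : Group G) (f : S →ₙ* G), Function.Injective f) ∧
    ∃ a b c : S, PConj a b ∧ PConj b c ∧ ¬ PConj a c := by
  let S := Subsemigroup.closure gens
  let f : S →ₙ* FreeGroup (Fin 3) :=
    (FreeMonoid.lift FreeGroup.of : FreeMonoid (Fin 3) →* _).toMulHom.comp (MulMemClass.subtype S)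
  have hf : Function.Injective f := emb.comp Subtype.val_injective
  let y : S := ⟨_, Subsemigroup.subset_closure (Or.inl rfl)⟩
  let x : S := ⟨_, Subsemigroup.subset_closure (Or.inr (Or.inl rfl))⟩
  let z : S := ⟨_, Subsemigroup.subset_closure (Or.inr (Or.inr (Or.inl rfl)))⟩
  let w : S := ⟨_, Subsemigroup.subset_closure (Or.inr (Or.inr (Or.inr rfl)))⟩
  refine ⟨S, inferInstance, hf.isCancelMul f (map_mul f), ⟨_, inferInstance, f, hf⟩,
    x * y, y * x, w * z, ⟨x, y, rfl, rfl⟩, ⟨z, w, rfl, rfl⟩, ?_⟩
  rintro ⟨u, v, h1, h2⟩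
  have hne : x * y ≠ w * z := fun e => by
    have := congrArg (fun s : S => s.1.toList) e
    revert this
    decide
  induction u using WithOne.recOneCoe with
  | one => exact hne (WithOne.coe_inj.1 (by rw [h1, h2, one_mul, mul_one]))
  | coe u =>
  induction v using WithOne.recOneCoe with
  | one => exact hne (WithOne.coe_inj.1 (by rw [h1, h2, one_mul, mul_one]))
  | coe v =>
  have h3 : [1, 2, 0] = u.1.toList ++ v.1.toList :=
    congrArg (fun s : S => s.1.toList) (WithOne.coe_inj.1 h1)
  have h4 : [2, 0, 1] = v.1.toList ++ u.1.toList :=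
    congrArg (fun s : S => s.1.toList) (WithOne.coe_inj.1 h2)
  have h5 := shape u.2
  have h6 := (shape v.2).1
  revert h3 h4 h5 h6
  generalize u.1.toList = l
  generalize v.1.toList = m
  rintro h3 h4 ⟨h5, h7⟩ h6
  rcases l with _ | ⟨a, _ | ⟨b, _ | ⟨c, l⟩⟩⟩ <;> simp_all
  · obtain ⟨rfl, rfl, rfl⟩ := h3
    simp at h4

end Pool.Agent.Results.MP_36d240_al.Conj
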